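import Pool.Agent.Helper28.KW.FC
import Pool.Agent.Helper87.KW.TA1

/-! Piece SE1: consequences of exactness at the level of sections and fibres. -/

open CategoryTheory Topology
open scoped ENNReal

set_option linter.unusedSectionVars false

namespace Pool.Agent.KW

universe u v

namespace SE1

/-- soft thresholding -/
noncomputable def psi (δ t : ℝ) : ℝ := t - max (-δ) (min t δ)

theorem psi_cont (δ : ℝ) : Continuous (psi δ) := by
  unfold psi
  fun_prop

theorem psi_zero {δ : ℝ} (hδ : 0 ≤ δ) : psi δ 0 = 0 := by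
  rw [psi, min_eq_left hδ, max_eq_right (by linarith)]
  ring

theorem psi_small {δ t : ℝ} (ht : |t| ≤ δ) : psi δ t = 0 := by
  rw [abs_le] at ht
  rw [psi, min_eq_left ht.2, max_eq_right ht.1]
  ring

theorem psi_near {δ t : ℝ} (hδ : 0 ≤ δ) : |t - psi δ t| ≤ δ := by
  have : t - psi δ t = max (-δ) (min t δ) := by rw [psi]; ring
  rw [this, abs_le]
  refine ⟨le_max_left _ _, max_le (by linarith) (min_le_right _ _)⟩

section cstar

variable {A : Type*} [NonUnitalCStarAlgebra A]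

theorem abs_le_of_mem {a : A} (ha : IsSelfAdjoint a) {t : ℝ} (ht : t ∈ quasispectrum ℝ a) :
    |t| ≤ ‖a‖ := by
  have h1 := norm_apply_le_norm_cfcₙ (fun x : ℝ => x) a ht continuousOn_id rfl ha
  rwa [cfcₙ_id' ℝ a ha] at h1

theorem norm_sub_psi {a : A} (ha : IsSelfAdjoint a) {δ : ℝ} (hδ : 0 ≤ δ) :
    ‖a - cfcₙ (psi δ) a‖ ≤ δ := by
  have h1 : a - cfcₙ (psi δ) a = cfcₙ (fun t : ℝ => t - psi δ t) a := by
    rw [cfcₙ_sub (fun t : ℝ => t) (psi δ) a continuousOn_id rfl (psi_cont δ).continuousOn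
      (psi_zero hδ), cfcₙ_id' ℝ a ha]
  rw [h1]
  refine norm_cfcₙ_le (fun t _ => ?_)
  exact psi_near hδ

theorem psi_eq_zero {a : A} (ha : IsSelfAdjoint a) {δ : ℝ} (h : ‖a‖ ≤ δ) :
    cfcₙ (psi δ) a = 0 := by
  rw [← norm_le_zero_iff]
  refine norm_cfcₙ_le (fun t ht => ?_)
  rw [psi_small ((abs_le_of_mem ha ht).trans h), norm_zero]

end cstar

section sec

variable {X : Type u} [Groupoid.{u} X] [TopologicalSpace X] [TopologicalSpace (Arr X)]
variable [EtaleGroupoid X]

theorem exists_bump (x : X) (K : Set X) (hK : IsCompact K) (hx : x ∉ K) :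
    ∃ φ : X → ℂ, IsCc φ ∧ φ x = 1 ∧ ∀ y ∈ K, φ y = 0 := by
  have := t2_unit (X := X)
  have := lc_unit (X := X)
  obtain ⟨f, h1, h2, h3, -⟩ := exists_continuous_one_zero_of_isCompact
    (isCompact_singleton (x := x)) hK.isClosed (Set.disjoint_singleton_left.2 hx)
  refine ⟨fun y => ((f y : ℝ) : ℂ), ⟨by fun_prop, ?_⟩, ?_, ?_⟩
  · exact h3.comp_left (g := fun t : ℝ => (t : ℂ)) Complex.ofReal_zero
  · have := h1 (Set.mem_singleton x)
    simp only [Pi.one_apply] at this
    change ((f x : ℝ) : ℂ) = 1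
    rw [this]
    norm_num
  · intro y hy
    have := h2 hy
    simp only [Pi.zero_apply] at this
    change ((f y : ℝ) : ℂ) = 0
    rw [this]
    norm_num

theorem neg_mem (A : GAlg.{u, v} X) {a : ∀ x, A.fib x} (ha : a ∈ A.sec) :
    (fun x => - a x) ∈ A.sec := by
  have := A.smul_mem (-1) a ha
  simpa using this

end sec

end SE1

section SE

variable {X : Type u} [Groupoid.{u} X] [TopologicalSpace X] [TopologicalSpace (Arr X)]
variable [EtaleGroupoid X] {I A B : GAlg.{u, v} X} (ι : GHom I A) (π : GHom A B)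

/-- sections are bounded -/
theorem sec_bdd (A : GAlg.{u, v} X) (a : ∀ x, A.fib x) (ha : a ∈ A.sec) :
    ∃ R : ℝ, 0 < R ∧ ∀ x, ‖a x‖ ≤ R := by
  have := t2_unit (X := X)
  have hK := A.vanish a ha 1 one_pos
  have hopen : ∀ n : ℕ, IsOpen {x | ‖a x‖ < (n : ℝ) + 1} := by
    intro n
    have h1 := (A.vanish a ha ((n : ℝ) + 1) (by positivity)).isClosed.isOpen_compl
    convert h1 using 1
    ext x
    simp
  obtain ⟨t, ht⟩ := hK.elim_directed_cover (fun n : ℕ => {x | ‖a x‖ < (n : ℝ) + 1}) hopen (by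
    intro x _
    rw [Set.mem_iUnion]
    obtain ⟨n, hn⟩ := exists_nat_gt ‖a x‖
    exact ⟨n, by simp only [Set.mem_ofPred_eq]; linarith⟩) (by
    intro i j
    refine ⟨max i j, ?_, ?_⟩
    · intro x hx
      have h2 : (i : ℝ) ≤ (max i j : ℕ) := by exact_mod_cast le_max_left i j
      simp only [Set.mem_ofPred_eq] at hx ⊢
      linarith
    · intro x hx
      have h2 : (j : ℝ) ≤ (max i j : ℕ) := by exact_mod_cast le_max_right i j
      simp only [Set.mem_ofPred_eq] at hx ⊢
      linarith)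
  refine ⟨(t : ℝ) + 1, by positivity, fun x => ?_⟩
  by_cases hx : 1 ≤ ‖a x‖
  · exact (ht hx).le
  · have : (0 : ℝ) ≤ t := Nat.cast_nonneg t
    push Not at hx
    linarith

theorem SE1.cfc_mem (A : GAlg.{u, v} X) {a : ∀ x, A.fib x} (ha : a ∈ A.sec)
    (hsa : ∀ x, IsSelfAdjoint (a x)) {φ : ℝ → ℝ} (hφ : Continuous φ) (h0 : φ 0 = 0) :
    (fun x => cfcₙ φ (a x)) ∈ A.sec := by
  obtain ⟨R, -, hR⟩ := sec_bdd A a ha
  exact cfcn_mem_of_closed A.sec A.add_mem A.smul_mem A.mul_mem A.complete a ha hsa R hR φ hφ h0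

theorem SE1.map_cfc {C D : Type*} [NonUnitalCStarAlgebra C] [NonUnitalCStarAlgebra D]
    (f : C →⋆ₙₐ[ℂ] D) {a : C} (ha : IsSelfAdjoint a) {φ : ℝ → ℝ} (hφ : Continuous φ)
    (h0 : φ 0 = 0) : f (cfcₙ φ a) = cfcₙ φ (f a) := by
  have hf : Continuous f :=
    (NonUnitalStarAlgHom.instContinuousLinearMapClassComplex
      (F := C →⋆ₙₐ[ℂ] D) (A := C) (B := D)).map_continuous f
  have : IsSelfAdjoint (f a) := ha.map f
  exact NonUnitalStarAlgHomClass.map_cfcₙ (S := ℂ) f φ a hφ.continuousOn h0 hf ha this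

/-- localisation: if the image of the selfadjoint section `a` is small at `x`, we can change `a`
slightly at `x` so that its image vanishes identically. -/
theorem SE1.local_lift {A B : GAlg.{u, v} X} (π : GHom A B) {a : ∀ x, A.fib x} (ha : a ∈ A.sec)
    (hsa : ∀ x, IsSelfAdjoint (a x)) (x : X) {δ : ℝ} (hδ : 0 < δ)
    (hx : ‖π.app x (a x)‖ < δ) :
    ∃ c ∈ A.sec, (∀ y, π.app y (c y) = 0) ∧ c x = cfcₙ (SE1.psi δ) (a x) := by
  have hc := SE1.cfc_mem A ha hsa (SE1.psi_cont δ) (SE1.psi_zero hδ.le)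
  have hb := π.map_sec a ha
  obtain ⟨φ, hφ, hφx, hφK⟩ := SE1.exists_bump x _ (B.vanish _ hb δ hδ) (by
    simp only [Set.mem_ofPred_eq, not_le]
    exact hx)
  refine ⟨fun y => φ y • cfcₙ (SE1.psi δ) (a y), A.cc_smul_mem φ hφ _ hc, ?_, ?_⟩
  · intro y
    simp only
    rw [map_smul]
    by_cases hy : δ ≤ ‖π.app y (a y)‖
    · rw [hφK y hy, zero_smul]
    · push Not at hy
      rw [SE1.map_cfc _ (hsa y) (SE1.psi_cont δ) (SE1.psi_zero hδ.le),
        SE1.psi_eq_zero ((hsa y).map _) hy.le, smul_zero]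
  · simp only
    rw [hφx, one_smul]

theorem fibre_inj (h : GShortExact ι π) (x : X) : Function.Injective (ι.app x) := by
  rw [injective_iff_map_eq_zero]
  intro e he
  by_contra hne
  obtain ⟨a, ha, hax⟩ := I.full x e
  have hb : (fun y => star (a y) * a y) ∈ I.sec := I.mul_mem _ (I.star_mem a ha) a ha
  have hsa : ∀ y, IsSelfAdjoint (star (a y) * a y) := fun y => IsSelfAdjoint.star_mul_self _
  have hpos : 0 < ‖e‖ := norm_pos_iff.2 hne
  set δ := ‖e‖ * ‖e‖ / 2 with hδ
  have hδ0 : 0 < δ := by positivity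
  obtain ⟨c, hc, hc0, hcx⟩ := SE1.local_lift ι hb hsa x hδ0 (by
    rw [hax, map_mul, he, mul_zero, norm_zero]
    exact hδ0)
  have hczero : c = fun _ => 0 := by
    apply h.2.2.1 hc I.zero_mem
    funext y
    change ι.app y (c y) = ι.app y 0
    rw [hc0 y, map_zero]
  have h1 := SE1.norm_sub_psi (hsa x) hδ0.le
  rw [← hcx, hczero, sub_zero, hax, CStarRing.norm_star_mul_self] at h1
  rw [hδ] at h1
  nlinarith

theorem fibre_surj (h : GShortExact ι π) (x : X) : Function.Surjective (π.app x) := by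
  intro b
  obtain ⟨β, hβ, hβx⟩ := B.full x b
  obtain ⟨α, hα, hαβ⟩ := h.2.2.2.1 hβ
  refine ⟨α x, ?_⟩
  rw [← hβx, ← hαβ]
  rfl

theorem fibre_ker (h : GShortExact ι π) (x : X) (a : A.fib x) :
    π.app x a = 0 ↔ ∃ e, ι.app x e = a := by
  constructor
  · intro ha
    have hclosed : IsClosed (Set.range (ι.app x)) :=
      (NonUnitalStarAlgHom.isometry (ι.app x) (fibre_inj ι π h x)).isClosedEmbedding.isClosed_range
    have key : ∀ b : A.fib x, IsSelfAdjoint b → π.app x b = 0 → b ∈ Set.range (ι.app x) := by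
      intro b hb hb0
      rw [← hclosed.closure_eq, Metric.mem_closure_iff]
      intro ε hε
      obtain ⟨α, hα, hαx⟩ := A.full x b
      -- selfadjoint section through `b`
      have hs : (fun y => (2⁻¹ : ℂ) • (α y + star (α y))) ∈ A.sec :=
        A.smul_mem _ _ (A.add_mem _ hα _ (A.star_mem _ hα))
      have hsa : ∀ y, IsSelfAdjoint ((2⁻¹ : ℂ) • (α y + star (α y))) := by
        intro y
        rw [isSelfAdjoint_iff, star_smul, star_add, star_star, add_comm]
        congr 1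
        simp
      have hsx : (2⁻¹ : ℂ) • (α x + star (α x)) = b := by
        rw [hαx, hb.star_eq, ← two_smul ℂ b, smul_smul]
        norm_num
      obtain ⟨c, hc, hc0, hcx⟩ := SE1.local_lift π hs hsa x (half_pos hε) (by
        rw [hsx, hb0, norm_zero]
        exact half_pos hε)
      rw [hsx] at hcx
      obtain ⟨e, he, hec⟩ := (h.2.2.2.2 c hc).1 (by
        funext y
        exact hc0 y)
      refine ⟨c x, ⟨e x, ?_⟩, ?_⟩
      · rw [← hec]
        rfl
      · rw [dist_eq_norm, hcx]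
        exact lt_of_le_of_lt (SE1.norm_sub_psi hb (half_pos hε).le) (half_lt_self hε)
    -- decompose
    have h1 : π.app x (star a) = 0 := by rw [map_star, ha, star_zero]
    obtain ⟨e1, he1⟩ := key ((2⁻¹ : ℂ) • (a + star a)) (by
      rw [isSelfAdjoint_iff, star_smul, star_add, star_star, add_comm]
      congr 1
      simp) (by rw [map_smul, map_add, ha, h1, add_zero, smul_zero])
    obtain ⟨e2, he2⟩ := key ((2⁻¹ * Complex.I : ℂ) • (star a - a)) (by
      rw [isSelfAdjoint_iff, star_smul, star_sub, star_star, ← neg_sub (star a) a, smul_neg,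
        ← neg_smul]
      congr 1
      simp) (by rw [map_smul, map_sub, ha, h1, sub_zero, smul_zero])
    refine ⟨e1 + Complex.I • e2, ?_⟩
    rw [map_add, map_smul, he1, he2, smul_smul]
    have h2 : Complex.I * (2⁻¹ * Complex.I) = -2⁻¹ := by
      rw [← mul_assoc, mul_comm Complex.I 2⁻¹, mul_assoc, Complex.I_mul_I]
      ring
    rw [h2, smul_add, smul_sub, neg_smul, neg_smul]
    have h3 : a = (2⁻¹ : ℂ) • a + (2⁻¹ : ℂ) • a := by
      rw [← add_smul]
      norm_num
    conv_rhs => rw [h3]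
    abel
  · rintro ⟨e, rfl⟩
    obtain ⟨ε, hε, hεx⟩ := I.full x e
    have h1 : π.onSec (ι.onSec ε) = 0 := (h.2.2.2.2 _ (h.1 hε)).2 ⟨ε, hε, rfl⟩
    have h2 := congrFun h1 x
    rw [← hεx]
    exact h2

/-- a family of elements of the fibres of `I` is a section of `I` if it is a section of `A` -/
theorem mem_sec_of_map (h : GShortExact ι π) (e : ∀ x, I.fib x)
    (he : (fun x => ι.app x (e x)) ∈ A.sec) : e ∈ I.sec := by
  obtain ⟨ε, hε, hεe⟩ := (h.2.2.2.2 _ he).1 (by
    funext x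
    exact (fibre_ker ι π h x _).2 ⟨e x, rfl⟩)
  have : ε = e := by
    funext x
    exact fibre_inj ι π h x (congrFun hεe x)
  rw [← this]
  exact hε

/-- `I` is an ideal -/
theorem exists_mul_sec (h : GShortExact ι π) (a : ∀ x, A.fib x) (ha : a ∈ A.sec)
    (e : ∀ x, I.fib x) (he : e ∈ I.sec) :
    ∃ c ∈ I.sec, ∀ x, ι.app x (c x) = a x * ι.app x (e x) := by
  have h1 : (fun x => a x * ι.app x (e x)) ∈ A.sec := A.mul_mem a ha _ (h.1 he)
  obtain ⟨c, hc, hce⟩ := (h.2.2.2.2 _ h1).1 (by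
    funext x
    change π.app x (a x * ι.app x (e x)) = 0
    rw [map_mul, (fibre_ker ι π h x _).2 ⟨e x, rfl⟩, mul_zero])
  exact ⟨c, hc, fun x => congrFun hce x⟩

end SE

end Pool.Agent.KW
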